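import Pool.Agent.Y113.MT.CStm
import Pool.Agent.TH125.Nod.Fft2

/-!
# Project MT, part 4 (helper113): the first fundamental theorem for a product of symplectic groups
(author helper154, after the file of helper492)
-/

set_option autoImplicit false

open Matrix Finset

namespace Pool.Agent.Y154.MT

open Pool.Agent.Y113.MT Pool.Agent.TH125.Nod

/-- the restriction to the indices of the given colours -/
def res {k n N r : ℕ} (c : Fin r → Fin k) :
    ((Fin r → Fin n × Fin k) → Fin N → ℚ) →ₗ[ℚ] ((Fin r → Fin n) → Fin N → ℚ) where
  toFun f := fun J => f (fun j => (J j, c j))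
  map_add' _ _ := rfl
  map_smul' _ _ := rfl

/-- the extension by zero -/
def ext {k n N r : ℕ} (c : Fin r → Fin k) (T : (Fin r → Fin n) → Fin N → ℚ)
    (J : Fin r → Fin n × Fin k) : Fin N → ℚ :=
  if ∀ j, (J j).2 = c j then T (fun j => (J j).1) else 0

theorem ext_update {k n N r : ℕ} (c : Fin r → Fin k) (T : (Fin r → Fin n) → Fin N → ℚ)
    (J : Fin r → Fin n × Fin k) (a : Fin r) (p : Fin n × Fin k) :
    ext c T (Function.update J a p) = if p.2 = c a ∧ ∀ j, j ≠ a → (J j).2 = c j then
      T (Function.update (fun j => (J j).1) a p.1) else 0 := by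
  have h1 : (∀ j, (Function.update J a p j).2 = c j) ↔
      (p.2 = c a ∧ ∀ j, j ≠ a → (J j).2 = c j) := by
    constructor
    · intro h
      refine ⟨?_, fun j hj => ?_⟩
      · have := h a
        rwa [Function.update_self] at this
      · have := h j
        rwa [Function.update_of_ne hj] at this
    · rintro ⟨h, h'⟩ j
      by_cases hj : j = a
      · subst hj
        rw [Function.update_self]
        exact h
      · rw [Function.update_of_ne hj]
        exact h' j hj
  have h2 : (fun j => (Function.update J a p j).1) =
      Function.update (fun j => (J j).1) a p.1 := by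
    funext j
    by_cases hj : j = a
    · subst hj
      rw [Function.update_self, Function.update_self]
    · rw [Function.update_of_ne hj, Function.update_of_ne hj]
  unfold ext
  rw [h2]
  exact if_congr h1 rfl rfl

theorem fqc : S_FQC := by
  classical
  intro k n N r c A hdet hA T hT
  have hu : ∀ i, IsUnit (A i).det := fun i => isUnit_iff_ne_zero.mpr (hdet i)
  have hAi : ∀ i, ((A i)⁻¹)ᵀ = -(A i)⁻¹ := by
    intro i
    rw [Matrix.transpose_nonsing_inv, hA]
    apply Matrix.inv_eq_left_inv
    rw [neg_mul_neg, Matrix.nonsing_inv_mul _ (hu i)]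
  have hAs : ∀ i a b, (A i)⁻¹ a b = -(A i)⁻¹ b a := by
    intro i a b
    have := congrFun (congrFun (hAi i) b) a
    rw [Matrix.transpose_apply, Matrix.neg_apply] at this
    exact this
  have key := fft (K := ℚ) (B := Fin n × Fin k) (ι := Fin k) (M := Fin N → ℚ) (κ := Prod.snd)
    (Q := Matrix.blockDiagonal fun i => (A i)⁻¹) (R := Matrix.blockDiagonal A)
    (s := fun _ => -1) (fun _ => Or.inr rfl)
    (by
      intro a b h
      rw [Matrix.blockDiagonal_apply, if_neg h])
    (by
      intro a b
      rw [Matrix.blockDiagonal_apply, Matrix.blockDiagonal_apply]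
      by_cases h : a.2 = b.2
      · rw [if_pos h, if_pos h.symm, hAs, h]
        push_cast
        ring
      · rw [if_neg h, if_neg (Ne.symm h), mul_zero])
    (by
      rw [← Matrix.blockDiagonal_mul, ← Matrix.blockDiagonal_one]
      refine congrArg Matrix.blockDiagonal ?_
      funext i
      exact Matrix.nonsing_inv_mul (A i) (hu i))
    (Fintype.card (Fin r)) (Fin r) c (ext c T) rfl
    (by
      intro J hJ
      unfold ext
      exact if_neg hJ)
    (by
      intro u v huv J
      have huv' : u.2 = v.2 := huv
      by_cases hJ : ∀ j, (J j).2 = c j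
      · have hX : ∀ i, (if i = u.2 then
            (Matrix.single u.1 v.1 1 + Matrix.single v.1 u.1 1) * (A i)⁻¹ else 0 :
            Matrix (Fin n) (Fin n) ℚ) * A i + A i * (if i = u.2 then
            (Matrix.single u.1 v.1 1 + Matrix.single v.1 u.1 1) * (A i)⁻¹ else 0 :
            Matrix (Fin n) (Fin n) ℚ)ᵀ = 0 := by
          intro i
          by_cases hi : i = u.2
          · rw [if_pos hi, Matrix.transpose_mul, hAi, Matrix.mul_assoc,
              Matrix.nonsing_inv_mul _ (hu i), Matrix.mul_one, ← Matrix.mul_assoc, mul_neg,
              Matrix.mul_nonsing_inv _ (hu i), Matrix.transpose_add, Matrix.transpose_single,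
              Matrix.transpose_single, neg_mul, Matrix.one_mul,
              add_comm (Matrix.single v.1 u.1 (1 : ℚ)), add_neg_cancel]
          · rw [if_neg hi, Matrix.transpose_zero, zero_mul, mul_zero, add_zero]
        have h1 := congrFun (hT _ hX) (fun j => (J j).1)
        refine Eq.trans ?_ h1
        unfold cav
        refine Finset.sum_congr rfl fun a _ => ?_
        rw [ext_update, ext_update]
        by_cases ha : c a = u.2
        · have hq : ∀ p : Fin n × Fin k, p.2 = c a →
              Matrix.blockDiagonal (fun i => (A i)⁻¹) p (J a) = (A (c a))⁻¹ p.1 (J a).1 := by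
            intro p hp
            rw [Matrix.blockDiagonal_apply, if_pos (hp.trans (hJ a).symm), hp]
          rw [if_pos ⟨ha.symm, fun j _ => hJ j⟩,
            if_pos ⟨huv'.symm.trans ha.symm, fun j _ => hJ j⟩, hq u ha.symm,
            hq v (huv'.symm.trans ha.symm)]
          have h2 : ∀ l, (if c a = u.2 then
              (Matrix.single u.1 v.1 1 + Matrix.single v.1 u.1 1) * (A (c a))⁻¹ else 0 :
              Matrix (Fin n) (Fin n) ℚ) l (J a).1 =
              (if l = u.1 then (A (c a))⁻¹ v.1 (J a).1 else 0) +
              (if l = v.1 then (A (c a))⁻¹ u.1 (J a).1 else 0) := by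
            intro j
            rw [if_pos ha, Matrix.add_mul, Matrix.add_apply]
            congr 1
            · by_cases h : j = u.1
              · rw [h, Matrix.single_mul_apply_same, if_pos rfl, one_mul]
              · rw [Matrix.single_mul_apply_of_ne _ _ _ _ _ h, if_neg h]
            · by_cases h : j = v.1
              · rw [h, Matrix.single_mul_apply_same, if_pos rfl, one_mul]
              · rw [Matrix.single_mul_apply_of_ne _ _ _ _ _ h, if_neg h]
          simp only [h2, add_smul, ite_smul, zero_smul, Finset.sum_add_distrib,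
            Finset.sum_ite_eq', Finset.mem_univ, if_true]
          push_cast
          rw [neg_mul, one_mul, neg_smul, sub_neg_eq_add]
        · rw [if_neg (fun h => ha h.1.symm), if_neg (fun h => ha (huv'.trans h.1).symm),
            smul_zero, smul_zero, sub_zero]
          simp only [if_neg ha, Matrix.zero_apply, zero_smul, Finset.sum_const_zero]
      · refine Finset.sum_eq_zero fun a _ => ?_
        rw [ext_update, ext_update]
        have h3 : ∀ p : Fin n × Fin k, p.2 = u.2 → ∀ (x : ℚ) (q : Fin n × Fin k), q.2 = u.2 →
            (x * Matrix.blockDiagonal (fun i => (A i)⁻¹) p (J a)) •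
              (if q.2 = c a ∧ ∀ j, j ≠ a → (J j).2 = c j then
                T (Function.update (fun j => (J j).1) a q.1) else 0) = 0 := by
          intro p hp x q hq
          by_cases h4 : q.2 = c a ∧ ∀ j, j ≠ a → (J j).2 = c j
          · have h5 : ¬ p.2 = (J a).2 := by
              intro h6
              refine hJ fun j => ?_
              by_cases hj : j = a
              · rw [hj, ← h6, hp, ← hq, h4.1]
              · exact h4.2 j hj
            rw [Matrix.blockDiagonal_apply, if_neg h5, mul_zero, zero_smul]
          · rw [if_neg h4, smul_zero]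
        have h7 := h3 v huv'.symm 1 u rfl
        rw [one_mul] at h7
        have h8 := h3 u rfl ((fun _ => (((-1 : ℤ)) : ℚ) : Fin k → ℚ) u.2) v huv'.symm
        rw [h7, zero_sub, neg_eq_zero]
        exact h8)
    (by intro i hi; exact absurd hi (by norm_num))
  have hres : T = res c (ext c T) := by
    funext J
    show T J = ext c T (fun j => (J j, c j))
    unfold ext
    rw [if_pos (fun _ => rfl)]
  rw [hres]
  have h9 : res c (ext c T) ∈ (Gen Prod.snd (Matrix.blockDiagonal fun i => (A i)⁻¹) c).map
      (res c) := Submodule.mem_map_of_mem key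
  refine (Submodule.map_le_iff_le_comap.2 ?_) h9
  unfold Gen
  rw [Submodule.span_le]
  rintro f ⟨m, e, w, rfl⟩
  show res c (gen Prod.snd (Matrix.blockDiagonal fun i => (A i)⁻¹) c e w) ∈ Submodule.span ℚ _
  by_cases hc : ∀ l, c (e (l, 0)) = c (e (l, 1))
  · refine Submodule.subset_span ⟨m, e, w, hc, ?_⟩
    funext J i
    show gen Prod.snd (Matrix.blockDiagonal fun i => (A i)⁻¹) c e w (fun j => (J j, c j)) i = _
    unfold gen
    rw [if_pos (fun _ => rfl)]
    show (∏ l, Matrix.blockDiagonal (fun i => (A i)⁻¹) (J (e (l, 0)), c (e (l, 0)))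
      (J (e (l, 1)), c (e (l, 1)))) * w i = _
    refine congrArg (fun x => x * w i) (Finset.prod_congr rfl fun l _ => ?_)
    rw [Matrix.blockDiagonal_apply, if_pos (hc l)]
  · push Not at hc
    obtain ⟨l, hl⟩ := hc
    have h10 : res c (gen Prod.snd (Matrix.blockDiagonal fun i => (A i)⁻¹) c e w) = 0 := by
      funext J
      show gen Prod.snd (Matrix.blockDiagonal fun i => (A i)⁻¹) c e w (fun j => (J j, c j)) = 0
      unfold gen
      rw [if_pos (fun _ => rfl), Finset.prod_eq_zero (Finset.mem_univ l), zero_smul]
      rw [Matrix.blockDiagonal_apply, if_neg hl]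
    rw [h10]
    exact Submodule.zero_mem _

end Pool.Agent.Y154.MT
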